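import Pool.Agent.R229.MT.All
import Pool.Agent.R359.MT.N2

/-! Q2 for all finitely decomposable measure spaces. -/

set_option autoImplicit false

namespace Pool.Agent.Results.MP_fe632d_an.AllCompactsIff

open MeasureTheory R496.SupportExpansion Pool.Agent.R229.MT

/-- **Q2 in full generality.** For every finitely decomposable measure space, every compact operator
lies in `C*_u(X, V_μ)` if and only if `μ` is purely atomic or all measurable sets of positive finite
measure have the same Maharam type. If moreover the pieces are standard Borel, then this holds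
if and only if `μ` is atomless or purely atomic; in particular every compact operator on `L²(ℝ)`
lies in `C*_u(ℝ, V_μ)`, `μ` the Lebesgue measure. -/
theorem result.{u, v} :
    (∀ (X : Type u) (I : Type v) [MeasurableSpace X] (μ : Measure X) (P : I → Set X),
      FinitelyDecomposable μ P →
      ((∀ k : Op μ, IsCompactOperator k → k ∈ CuAlg μ) ↔ (PurelyAtomic μ ∨ Homogeneous μ))) ∧
    (∀ (X : Type u) (I : Type v) [MeasurableSpace X] (μ : Measure X) (P : I → Set X),
      FinitelyDecomposable μ P → (∀ i, StandardBorelSpace (P i)) →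
      ((∀ k : Op μ, IsCompactOperator k → k ∈ CuAlg μ) ↔
        ((∀ x, μ {x} = 0) ∨ ∀ A, MeasurableSet A → μ A ≠ 0 → ∃ x ∈ A, μ {x} ≠ 0))) ∧
    (∀ k : Op (volume : Measure ℝ),
      IsCompactOperator k → k ∈ CuAlg (volume : Measure ℝ)) :=
  ⟨fun X I _ μ P hP => q2all Pool.Agent.R392.MT.stmtN1 Pool.Agent.R359.MT.n2 stmtE
    t_StmtPos hom_all X I μ P hP,
    fun _ _ _ _ _ hP hst => q2 hP hst, real_case⟩

end Pool.Agent.Results.MP_fe632d_an.AllCompactsIff
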