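import Pool.Agent.R229.MT.Bridge
import Pool.Agent.R229.MS.Piece
import Pool.Agent.R229.MS.Free
import Pool.Agent.R209.MS.Step
import Pool.Agent.R209.MS.Rec
import Pool.Agent.R364.MS.G
import Pool.Agent.R364.MS.M3
import Pool.Agent.R280.MSW.Basic
import Pool.Agent.R280.MSW.Perm3

/-! Q1 for all finitely decomposable measure spaces. -/

set_option autoImplicit false

namespace Pool.Agent.Results.MP_fe632d_an.NonzeroCompactAll

open MeasureTheory R496.SupportExpansion

universe u v

/-- **Q1 in full generality.** For every nonzero finitely decomposable measure space the algebra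
`C*_u(X, V_μ)` contains a nonzero compact operator. -/
theorem result (X : Type u) (I : Type v) [MeasurableSpace X] (μ : Measure X) (P : I → Set X)
    (hP : FinitelyDecomposable μ P) (hμ : μ ≠ 0) :
    ∃ k : Op μ, k ∈ CuAlg μ ∧ IsCompactOperator k ∧ k ≠ 0 :=
  Pool.Agent.R229.MT.q1all
    (Pool.Agent.R364.MS.maharam (Pool.Agent.R229.MS.stmtRec
      (Pool.Agent.R229.MS.stmtStep Pool.Agent.R364.MS.stmtG) Pool.Agent.R229.MS.stmtUndMono))
    (Pool.Agent.R229.MS.piece Pool.Agent.R280.MSW.stmtTotal Pool.Agent.R280.MSW.stmtPerm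
      Pool.Agent.R229.MS.t_StmtFree) X I μ P hP hμ

end Pool.Agent.Results.MP_fe632d_an.NonzeroCompactAll
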